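import Pool.Agent.UlamWelch.Defs

/-!
The `κ`-complete algebra generated by a family of `κ` sets has cardinality `κ`, for `κ`
inaccessible.
-/

set_option autoImplicit false

universe u

namespace Pool.Agent.UlamWelch

open Cardinal Ordinal

/-- Sets decided by fewer than `κ` of the sets `gen j`. -/
def decided {X J : Type u} (gen : J → Set X) : Set (Set X) :=
  {S | ∃ Z : Set J, #Z < #X ∧ ∀ x y : X, (∀ j ∈ Z, (x ∈ gen j ↔ y ∈ gen j)) → (x ∈ S ↔ y ∈ S)}

lemma isCompleteAlgebra_decided {X J : Type u} (hX : (#X).IsInaccessible) (gen : J → Set X) :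
    IsCompleteAlgebra (decided gen) := by
  constructor
  · rintro S ⟨Z, hZ, h⟩
    exact ⟨Z, hZ, fun x y hxy => not_congr (h x y hxy)⟩
  · intro 𝒮 h𝒮 hcard
    have h1 : ∀ s : 𝒮, ∃ Z : Set J, #Z < #X ∧
        ∀ x y : X, (∀ j ∈ Z, (x ∈ gen j ↔ y ∈ gen j)) → (x ∈ (s : Set X) ↔ y ∈ (s : Set X)) :=
      fun s => h𝒮 s.2
    choose Z hZ1 hZ2 using h1
    refine ⟨⋃ s, Z s, ?_, ?_⟩
    · exact (Cardinal.card_iUnion_lt_iff_forall_of_isRegular hX.isRegular hcard).mpr hZ1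
    · intro x y hxy
      have h2 : ∀ s : 𝒮, x ∈ (s : Set X) ↔ y ∈ (s : Set X) := fun s =>
        hZ2 s x y (fun j hj => hxy j (Set.mem_iUnion.mpr ⟨s, hj⟩))
      constructor
      · rintro ⟨s, hs, hx⟩
        exact ⟨s, hs, (h2 ⟨s, hs⟩).mp hx⟩
      · rintro ⟨s, hs, hy⟩
        exact ⟨s, hs, (h2 ⟨s, hs⟩).mpr hy⟩

lemma gen_mem_decided {X J : Type u} (hX : (#X).IsInaccessible) (gen : J → Set X) (j : J) :
    gen j ∈ decided gen := by
  refine ⟨{j}, ?_, fun x y hxy => hxy j rfl⟩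
  rw [mk_singleton]
  exact_mod_cast hX.nat_lt 1

lemma mk_decided_le {X J : Type u} (hX : (#X).IsInaccessible) (gen : J → Set X)
    (hJ : #J = #X) : #(decided gen) ≤ #X := by
  set κ := #X with hκ
  let I := {Z : Set J // #Z < κ}
  let F : (Σ Z : I, Set (Set Z.1)) → Set X := fun q => {x | {j : q.1.1 | x ∈ gen j} ∈ q.2}
  have hsub : decided gen ⊆ Set.range F := by
    rintro S ⟨Z, hZ, h⟩
    refine ⟨⟨⟨Z, hZ⟩, {t | ∃ x ∈ S, {j : Z | x ∈ gen j} = t}⟩, ?_⟩
    ext x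
    constructor
    · rintro ⟨y, hy, hyx⟩
      refine (h x y (fun j hj => ?_)).mpr hy
      have h2 : (⟨j, hj⟩ : Z) ∈ {j : Z | y ∈ gen j} ↔ (⟨j, hj⟩ : Z) ∈ {j : Z | x ∈ gen j} := by
        rw [hyx]
      exact h2.symm
    · intro hx
      exact ⟨x, hx, rfl⟩
  have hI : #I = κ := by
    have h1 : IsStrongPrelimit #J := by
      rw [hJ]; exact hX.isStrongLimit.isStrongPrelimit
    have h2 := mk_subset_mk_lt_cof h1
    rw [hJ, hX.isRegular.cof_ord] at h2
    exact h2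
  have hκ0 : ℵ₀ ≤ κ := hX.isStrongLimit.aleph0_le
  calc #(decided gen) ≤ #(Set.range F) := mk_le_mk_of_subset hsub
    _ ≤ #(Σ Z : I, Set (Set Z.1)) := mk_range_le
    _ = Cardinal.sum (fun Z : I => #(Set (Set Z.1))) := mk_sigma _
    _ ≤ Cardinal.sum (fun _ : I => κ) := by
        apply Cardinal.sum_le_sum
        intro Z
        rw [mk_set, mk_set]
        exact (hX.isStrongLimit.isStrongPrelimit (hX.isStrongLimit.isStrongPrelimit Z.2)).le
    _ = κ * κ := by rw [Cardinal.sum_const', hI]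
    _ = κ := Cardinal.mul_eq_self hκ0

end Pool.Agent.UlamWelch
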