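import Pool.Agent.UlamWelch.Algebra

/-!
If `κ` is inaccessible and there is no inaccessible cardinal strictly between `μ` and `κ`, then
some `κ`-complete algebra of size `κ` carries no uniform `κ`-complete ultrafilter.
-/

set_option autoImplicit false

universe u

namespace Pool.Agent.UlamWelch

open Cardinal Ordinal

/-- `α` is bounded by a power of a smaller ordinal. -/
def type1 (α : Ordinal.{u}) : Prop := ∃ β < α, α.card ≤ 2 ^ β.card

lemma exists_cofinal_fun {α : Ordinal.{u}} (hα : α ≠ 0) :
    ∃ g : Ordinal.{u} → Ordinal.{u}, (∀ ξ, g ξ < α) ∧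
      ∀ β < α, ∃ ξ < (cof α).ord, β ≤ g ξ := by
  obtain ⟨ι, f, hf, hι⟩ := exists_lsub_cof α
  obtain ⟨r, hr, hr2⟩ := exists_ord_eq ι
  classical
  refine ⟨fun ξ => if h : ξ < type r then f (enum r ⟨ξ, h⟩) else 0, ?_, ?_⟩
  · intro ξ
    simp only
    split_ifs with h
    · rw [← hf]; exact lt_lsub _ _
    · exact pos_iff_ne_zero.mpr hα
  · intro β hβ
    rw [← hf, lt_lsub_iff] at hβ
    obtain ⟨i, hi⟩ := hβ
    refine ⟨typein r i, ?_, ?_⟩
    · rw [← hι, hr2]; exact typein_lt_type r i
    · simp only
      rw [dif_pos (typein_lt_type r i), enum_typein]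
      exact hi

lemma not_type1 {κ μ : Cardinal.{u}} (hμ : ℵ₀ ≤ μ)
    (hno : ∀ ν : Cardinal.{u}, μ < ν → ν < κ → ¬ ν.IsInaccessible) {α : Ordinal.{u}}
    (h1 : μ.ord < α) (h2 : α < κ.ord) (h3 : ¬ type1 α) : (cof α).ord < α := by
  have hα : α.card.ord = α := by
    by_contra hne
    apply h3
    exact ⟨α.card.ord, lt_of_le_of_ne (ord_card_le α) hne, by
      rw [card_ord]; exact (cantor _).le⟩
  have hlim : IsStrongLimit α.card := by
    refine ⟨?_, ?_⟩
    · intro h0
      rw [h0, ord_zero] at hα
      rw [← hα] at h1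
      exact absurd h1 (not_lt.mpr zero_le)
    · intro x hx
      by_contra hcon
      rw [not_lt] at hcon
      apply h3
      refine ⟨x.ord, ?_, by rw [card_ord]; exact hcon⟩
      rw [← hα]; exact ord_lt_ord.mpr hx
  have hμα : μ < α.card := by
    rw [← ord_lt_ord, hα]; exact h1
  have hακ : α.card < κ := by
    rw [← ord_lt_ord, hα]; exact h2
  have hni := hno _ hμα hακ
  rw [isInaccessible_def] at hni
  have hnr : ¬ Cardinal.IsRegular α.card := fun h => hni ⟨hμ.trans_lt hμα, h, hlim⟩
  have hcof : cof α < α.card := by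
    by_contra hcon
    rw [not_lt] at hcon
    apply hnr
    exact ⟨hμ.trans hμα.le, by rw [hα]; exact hcon⟩
  calc (cof α).ord < α.card.ord := ord_lt_ord.mpr hcof
    _ = α := hα

theorem exists_bad_algebra (X : Type u) (hX : (#X).IsInaccessible) {μ : Cardinal.{u}}
    (hμ : ℵ₀ ≤ μ) (hμX : μ < #X)
    (hno : ∀ ν : Cardinal.{u}, μ < ν → ν < #X → ¬ ν.IsInaccessible) :
    ∃ 𝒜 : Set (Set X), IsCompleteAlgebra 𝒜 ∧ #𝒜 = #X ∧ (∀ x, {x} ∈ 𝒜) ∧
      ¬ ∃ U, IsUniformUltrafilterOn 𝒜 U := by
  classical
  set κ := #X with hκ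
  obtain ⟨r, hwo, hr⟩ := exists_ord_eq X
  have hinf : Infinite X := by
    rw [Cardinal.infinite_iff]; exact hX.isStrongLimit.aleph0_le
  -- ranks
  set rk : X → Ordinal.{u} := fun x => typein r x with hrk
  have hrk_inj : Function.Injective rk := typein_injective r
  have hrk_lt : ∀ x, rk x < κ.ord := fun x => by rw [hr]; exact typein_lt_type r x
  have hrk_surj : ∀ β < κ.ord, ∃ x, rk x = β := fun β hβ => by
    rw [hr] at hβ; exact typein_surj r hβ
  have hcard_le : ∀ β < κ.ord, #{x : X | rk x ≤ β} < κ := by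
    intro β hβ
    obtain ⟨b, hb⟩ := hrk_surj β hβ
    have h1 : {x : X | rk x ≤ β} = insert b {x : X | r x b} := by
      ext x
      simp only [Set.mem_ofPred_eq, Set.mem_insert_iff]
      rw [← hb, le_iff_lt_or_eq, typein_lt_typein, hrk_inj.eq_iff]
      tauto
    rw [h1]
    refine (mk_insert_le).trans_lt ?_
    have h2 : #{x : X | r x b} < κ := by
      have := card_typein_lt b hr
      rw [card_typein] at this
      exact this
    exact Cardinal.add_lt_of_lt hX.isStrongLimit.aleph0_le h2 (by exact_mod_cast hX.nat_lt 1)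
  -- cofinal functions
  have hG : ∀ α : Ordinal.{u}, ∃ g : Ordinal.{u} → Ordinal.{u}, α ≠ 0 →
      ((∀ ξ, g ξ < α) ∧ ∀ β < α, ∃ ξ < (cof α).ord, β ≤ g ξ) := by
    intro α
    by_cases h : α = 0
    · exact ⟨fun _ => 0, fun h' => absurd h h'⟩
    · obtain ⟨g, hg⟩ := exists_cofinal_fun h
      exact ⟨g, fun _ => hg⟩
  choose G hG using hG
  have hρ : ∀ α : Ordinal.{u}, ∃ β : Ordinal.{u}, type1 α → (β < α ∧ α.card ≤ 2 ^ β.card) := by
    intro α
    by_cases h : type1 α
    · obtain ⟨β, hβ⟩ := h
      exact ⟨β, fun _ => hβ⟩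
    · exact ⟨0, fun h' => absurd h' h⟩
  choose ρ hρ using hρ
  -- the regressive functions
  let q : Option (Option (Option X)) → Ordinal.{u} → Ordinal.{u} := fun i α =>
    match i with
    | none => if type1 α then 0 else 1
    | some none => if type1 α then ρ α else 0
    | some (some none) => if type1 α then 0 else (cof α).ord
    | some (some (some k)) => if type1 α then 0 else G α (rk k)
  let p : Option (Option (Option X)) → Ordinal.{u} → Ordinal.{u} := fun i α =>
    if μ.ord < α ∧ α < κ.ord then q i α else 0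
  have hp_lt : ∀ i α, μ.ord < α → α < κ.ord → p i α < α := by
    intro i α h1 h2
    have hα1 : 1 < α := by
      have : (1 : Ordinal) < μ.ord := by
        rw [lt_ord, card_one]; exact one_lt_aleph0.trans_le hμ
      exact this.trans h1
    have hα0 : 0 < α := zero_lt_one.trans hα1
    simp only [p]
    rw [if_pos ⟨h1, h2⟩]
    rcases i with _ | _ | _ | k
    · simp only [q]; split_ifs
      · exact hα0
      · exact hα1
    · simp only [q]; split_ifs with h3
      · exact (hρ α h3).1
      · exact hα0
    · simp only [q]; split_ifs with h3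
      · exact hα0
      · exact not_type1 hμ hno h1 h2 h3
    · simp only [q]; split_ifs
      · exact hα0
      · exact (hG α hα0.ne').1 _
  have hp_le : ∀ i α, p i α ≤ α := by
    intro i α
    by_cases h : μ.ord < α ∧ α < κ.ord
    · exact (hp_lt i α h.1 h.2).le
    · simp only [p]; rw [if_neg h]; exact zero_le
  -- words
  let F : List (Option (Option (Option X))) → X → Ordinal.{u} := fun l x =>
    l.foldr p (rk x)
  have hF0 : ∀ x, F [] x = rk x := fun _ => rfl
  have hFc : ∀ i l x, F (i :: l) x = p i (F l x) := fun _ _ _ => rfl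
  have hF_lt : ∀ l x, F l x < κ.ord := by
    intro l x
    induction l with
    | nil => exact hrk_lt x
    | cons i l ih => rw [hFc]; exact (hp_le _ _).trans_lt ih
  -- the algebra
  let gen : (List (Option (Option (Option X))) × X) ⊕ X → Set X := fun j =>
    match j with
    | Sum.inl a => {x | F a.1 x = rk a.2}
    | Sum.inr x => {x}
  have hJ : #((List (Option (Option (Option X))) × X) ⊕ X) = #X := by
    have h0 : ℵ₀ ≤ #X := hX.isStrongLimit.aleph0_le
    rw [mk_sum, mk_prod, mk_list_eq_mk, mk_option, mk_option, mk_option]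
    simp only [Cardinal.lift_id]
    have h1 : #X + 1 = #X := Cardinal.add_one_eq h0
    rw [h1, h1, h1, Cardinal.mul_eq_self h0, Cardinal.add_eq_self h0]
  refine ⟨decided gen, isCompleteAlgebra_decided hX gen, ?_,
    fun x => gen_mem_decided hX gen (Sum.inr x), ?_⟩
  · apply le_antisymm (mk_decided_le hX gen hJ)
    refine mk_le_of_injective (f := fun x => (⟨{x}, gen_mem_decided hX gen (Sum.inr x)⟩ :
      decided gen)) ?_
    intro x y hxy
    have := congrArg Subtype.val hxy
    simpa using this
  rintro ⟨U, hU⟩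
  -- level sets
  have hlev : ∀ l β, {x | F l x = β} ∈ decided gen := by
    intro l β
    by_cases hβ : β < κ.ord
    · obtain ⟨b, hb⟩ := hrk_surj β hβ
      have := gen_mem_decided hX gen (Sum.inl (l, b))
      simp only [gen] at this
      rw [hb] at this
      exact this
    · have h1 : {x | F l x = β} = ∅ := by
        ext x
        simp only [Set.mem_ofPred_eq, Set.mem_empty_iff_false, iff_false]
        rintro rfl
        exact hβ (hF_lt l x)
      rw [h1]
      have := (isCompleteAlgebra_decided hX gen).sUnion_mem ∅ (Set.empty_subset _)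
        (by rw [mk_eq_zero]; exact hX.pos)
      simpa using this
  have hne : ∀ a ∈ U, a.Nonempty := by
    intro a ha
    have h1 := hU.uniform a ha
    rw [← Set.nonempty_coe_sort, ← mk_ne_zero_iff, h1]
    exact hX.ne_zero
  -- finite and small intersections
  have hinter : ∀ (I : Set X) (a : X → Set X), #I < κ → (∀ i ∈ I, a i ∈ U) →
      (⋂ i ∈ I, a i) ∈ U := by
    intro I a hI ha
    have h1 : (⋂ i ∈ I, a i) = ⋂₀ (a '' I) := by rw [Set.sInter_image]
    rw [h1]
    apply hU.sInter_mem
    · rintro _ ⟨i, hi, rfl⟩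
      exact ha i hi
    · exact mk_image_le.trans_lt hI
  have hinter2 : ∀ a ∈ U, ∀ b ∈ U, a ∩ b ∈ U := by
    intro a ha b hb
    have h1 : a ∩ b = ⋂₀ {a, b} := by rw [Set.sInter_pair]
    rw [h1]
    apply hU.sInter_mem
    · rintro s (rfl | rfl)
      · exact ha
      · exact hb
    · have hfin : ({a, b} : Set (Set X)).Finite := Set.toFinite _
      exact (lt_aleph0_iff_set_finite.mpr hfin).trans_le hX.isStrongLimit.aleph0_le
  -- nonconstant words
  set NC : List (Option (Option (Option X))) → Prop := fun l => ∀ β, {x | F l x = β} ∉ U with hNC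
  have hLB : ∀ l, NC l → ∀ δ < κ.ord, {x | δ < F l x} ∈ U := by
    intro l hl δ hδ
    have h1 : {x | δ < F l x} = ⋂ k ∈ {k : X | rk k ≤ δ}, {x | F l x = rk k}ᶜ := by
      ext x
      simp only [Set.mem_ofPred_eq, Set.mem_iInter, Set.mem_compl_iff]
      constructor
      · intro h k hk hx
        rw [hx] at h
        exact absurd h (not_lt.mpr hk)
      · intro h
        by_contra hcon
        rw [not_lt] at hcon
        obtain ⟨k, hk⟩ := hrk_surj (F l x) (hF_lt l x)
        exact h k (by rw [hk]; exact hcon) hk.symm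
    rw [h1]
    apply hinter _ _ (hcard_le δ hδ)
    intro k _
    exact (hU.mem_or_compl_mem _ (hlev l (rk k))).resolve_left (hl _)
  -- there is a minimal nonconstant word
  have hmin : ∃ l, NC l ∧ ∀ i, ¬ NC (i :: l) := by
    by_contra hcon
    push Not at hcon
    have hnil : NC [] := by
      intro β hβ
      obtain ⟨x, hx⟩ := hne _ hβ
      have h1 : {y | F [] y = β} = {x} := by
        ext y
        simp only [Set.mem_ofPred_eq, Set.mem_singleton_iff]
        constructor
        · intro hy
          have hx' : F [] x = β := hx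
          rw [hF0] at hy hx'
          exact hrk_inj (hy.trans hx'.symm)
        · rintro rfl; exact hx
      have h2 := hU.uniform _ hβ
      rw [h1, mk_singleton] at h2
      have h3 : (1 : Cardinal) < #X := by exact_mod_cast hX.nat_lt 1
      rw [← h2] at h3
      exact lt_irrefl _ h3
    choose! nxt hnxt using hcon
    let L : ℕ → List (Option (Option (Option X))) := fun n =>
      Nat.rec [] (fun _ l => nxt l :: l) n
    have hL0 : L 0 = [] := rfl
    have hLs : ∀ n, L (n + 1) = nxt (L n) :: L n := fun n => rfl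
    have hLNC : ∀ n, NC (L n) := by
      intro n
      induction n with
      | zero => exact hnil
      | succ n ih => rw [hLs]; exact hnxt _ ih
    have h1 : ∀ n, {x | μ.ord < F (L n) x} ∈ U := fun n =>
      hLB _ (hLNC n) _ (ord_lt_ord.mpr hμX)
    have h2 : (⋂₀ Set.range (fun n : ℕ => {x | μ.ord < F (L n) x})) ∈ U := by
      apply hU.sInter_mem
      · rintro _ ⟨n, rfl⟩
        exact h1 n
      · refine lt_of_le_of_lt ?_ hX.aleph0_lt
        exact mk_le_aleph0_iff.mpr (Set.countable_range _).to_subtype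
    obtain ⟨x, hx⟩ := hne _ h2
    have h3 : ∀ n, μ.ord < F (L n) x := fun n => hx _ ⟨n, rfl⟩
    have h4 : StrictAnti (fun n => F (L n) x) := by
      refine strictAnti_nat_of_succ_lt (fun n => ?_)
      rw [hLs, hFc]
      exact hp_lt _ _ (h3 n) (hF_lt _ _)
    exact not_strictAnti_of_wellFoundedLT _ h4
  obtain ⟨l, hl, hlmin⟩ := hmin
  -- constant values
  have hval : ∀ i, ∃ β, {x | p i (F l x) = β} ∈ U := by
    intro i
    have h1 := hlmin i
    simp only [hNC] at h1
    push Not at h1
    obtain ⟨β, hβ⟩ := h1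
    exact ⟨β, hβ⟩
  choose v hv using hval
  have hE0 : {x | μ.ord < F l x} ∈ U := hLB l hl _ (ord_lt_ord.mpr hμX)
  have hp_eq : ∀ i x, μ.ord < F l x → p i (F l x) = q i (F l x) := by
    intro i x hx
    simp only [p]
    rw [if_pos ⟨hx, hF_lt l x⟩]
  by_cases hcase : ∃ x, x ∈ {x | μ.ord < F l x} ∩ {x | p none (F l x) = v none} ∧ type1 (F l x)
  · -- type 1 case
    obtain ⟨x₀, ⟨hx₀1, hx₀2⟩, hx₀3⟩ := hcase
    have hv0 : v none = 0 := by
      have h1 := hp_eq none x₀ hx₀1
      have h2 : p none (F l x₀) = v none := hx₀2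
      rw [h1] at h2
      simp only [q] at h2
      rw [if_pos hx₀3] at h2
      exact h2.symm
    set ν := Order.succ ((2 : Cardinal.{u}) ^ (v (some none)).card) with hν
    have hνκ : ν < κ := by
      have h1 : v (some none) < κ.ord := by
        obtain ⟨x, hx⟩ := hne _ (hv (some none))
        have hx' : p (some none) (F l x) = v (some none) := hx
        rw [← hx']
        exact (hp_le (some none) (F l x)).trans_lt (hF_lt l x)
      have h2 : (v (some none)).card < κ := lt_ord.mp h1
      have h3 := hX.isStrongLimit.isStrongPrelimit h2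
      exact hX.isStrongLimit.isSuccLimit.succ_lt h3
    have h1 := hinter2 _ (hinter2 _ hE0 _ (hv none)) _
      (hinter2 _ (hv (some none)) _ (hLB l hl ν.ord (ord_lt_ord.mpr hνκ)))
    obtain ⟨x, ⟨hx1, hx2⟩, hx3, hx4⟩ := hne _ h1
    have hx1' : μ.ord < F l x := hx1
    have hx2' : p none (F l x) = v none := hx2
    have hx3' : p (some none) (F l x) = v (some none) := hx3
    have hx4' : ν.ord < F l x := hx4
    rw [hp_eq none _ hx1', hv0] at hx2'
    have ht1 : type1 (F l x) := by
      by_contra hcon
      simp only [q] at hx2'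
      rw [if_neg hcon] at hx2'
      exact one_ne_zero hx2'
    rw [hp_eq (some none) _ hx1'] at hx3'
    simp only [q] at hx3'
    rw [if_pos ht1] at hx3'
    have h2 := (hρ _ ht1).2
    rw [hx3'] at h2
    have h3 : ν ≤ (F l x).card := by
      have := Ordinal.card_le_card hx4'.le
      rwa [card_ord] at this
    have h4 : (2 : Cardinal.{u}) ^ (v (some none)).card < ν := Order.lt_succ _
    exact absurd (h4.trans_le (h3.trans h2)) (lt_irrefl _)
  · -- singular case
    push Not at hcase
    set lam := v (some (some none)) with hlam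
    have hE1 := hinter2 _ (hinter2 _ hE0 _ (hv none)) _ (hv (some (some none)))
    have hlamκ : lam < κ.ord := by
      obtain ⟨x, hx⟩ := hne _ (hv (some (some none)))
      have hx' : p (some (some none)) (F l x) = lam := hx
      rw [← hx']
      exact (hp_le (some (some none)) (F l x)).trans_lt (hF_lt l x)
    have hE2 := hinter {k : X | rk k ≤ lam}
      (fun k => {x | p (some (some (some k))) (F l x) = v (some (some (some k)))})
      (hcard_le lam hlamκ) (fun k _ => hv (some (some (some k))))
    have hE := hinter2 _ hE1 _ hE2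
    set E := ({x | μ.ord < F l x} ∩ {x | p none (F l x) = v none} ∩
      {x | p (some (some none)) (F l x) = v (some (some none))}) ∩
      ⋂ k ∈ {k : X | rk k ≤ lam},
        {x | p (some (some (some k))) (F l x) = v (some (some (some k)))} with hEdef
    -- facts for members of `E`
    have hfacts : ∀ x ∈ E, (cof (F l x)).ord = lam ∧
        (∀ k, rk k < lam → G (F l x) (rk k) = v (some (some (some k)))) ∧ F l x ≠ 0 := by
      rintro x ⟨⟨⟨hx1, hx2⟩, hx3⟩, hx4⟩
      have hx1' : μ.ord < F l x := hx1
      have hnt : ¬ type1 (F l x) := hcase x ⟨hx1, hx2⟩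
      refine ⟨?_, ?_, ?_⟩
      · have hx3' : p (some (some none)) (F l x) = lam := hx3
        rw [hp_eq (some (some none)) _ hx1'] at hx3'
        simp only [q] at hx3'
        rw [if_neg hnt] at hx3'
        exact hx3'
      · intro k hk
        rw [Set.mem_iInter₂] at hx4
        have h1 : p (some (some (some k))) (F l x) = v (some (some (some k))) := hx4 k hk.le
        rw [hp_eq (some (some (some k))) _ hx1'] at h1
        simp only [q] at h1
        rw [if_neg hnt] at h1
        exact h1
      · intro h0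
        rw [h0] at hx1'
        exact absurd hx1' (not_lt.mpr zero_le)
    have hconst : ∀ x ∈ E, ∀ y ∈ E, F l x ≤ F l y := by
      intro x hx y hy
      by_contra hcon
      rw [not_le] at hcon
      obtain ⟨hx1, hx2, hx3⟩ := hfacts x hx
      obtain ⟨hy1, hy2, hy3⟩ := hfacts y hy
      obtain ⟨ξ, hξ1, hξ2⟩ := (hG (F l x) hx3).2 (F l y) hcon
      rw [hx1] at hξ1
      obtain ⟨k, hk⟩ := hrk_surj ξ (hξ1.trans hlamκ)
      rw [← hk] at hξ1 hξ2
      rw [hx2 k hξ1, ← hy2 k hξ1] at hξ2
      exact absurd ((hG (F l y) hy3).1 (rk k)) (not_lt.mpr hξ2)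
    obtain ⟨x₁, hx₁⟩ := hne _ hE
    apply hl (F l x₁)
    apply hU.superset_mem _ hE _ (hlev l _)
    intro x hx
    exact le_antisymm (hconst x hx x₁ hx₁) (hconst x₁ hx₁ x hx)

end Pool.Agent.UlamWelch
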