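import Mathlib

/-!
Welch games, the games `𝒢*_γ`, Ulam's cut-and-choose games, and measurable cardinals.
All games are played on an arbitrary type `X`; its cardinality plays the role of `κ`.
-/

set_option autoImplicit false

universe u

namespace Pool.Agent.UlamWelch

open Cardinal Ordinal

/-- `𝒜` is a `κ`-complete subalgebra of the power set of `X`, where `κ = #X`: it is closed under
complements and under unions of fewer than `κ` of its members (in particular `∅ ∈ 𝒜`). -/
structure IsCompleteAlgebra {X : Type u} (𝒜 : Set (Set X)) : Prop where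
  compl_mem : ∀ a ∈ 𝒜, aᶜ ∈ 𝒜
  sUnion_mem : ∀ S : Set (Set X), S ⊆ 𝒜 → #S < #X → ⋃₀ S ∈ 𝒜

/-- `U` is a uniform `κ`-complete ultrafilter on the algebra `𝒜` (`κ = #X`): it consists of
members of `𝒜`, is closed under supersets in `𝒜` and under intersections of fewer than `κ` of its
members, contains `a` or its complement for each `a ∈ 𝒜`, and all its members have
cardinality `κ`. -/
structure IsUniformUltrafilterOn {X : Type u} (𝒜 U : Set (Set X)) : Prop where
  subset : U ⊆ 𝒜
  superset_mem : ∀ a ∈ U, ∀ b ∈ 𝒜, a ⊆ b → b ∈ U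
  sInter_mem : ∀ S : Set (Set X), S ⊆ U → #S < #X → ⋂₀ S ∈ U
  mem_or_compl_mem : ∀ a ∈ 𝒜, a ∈ U ∨ aᶜ ∈ U
  uniform : ∀ a ∈ U, #a = #X

/-- A legal sequence `(𝒜_α)_{α < γ}` of moves of Player I in the Welch game of length `γ`:
each `𝒜_α` is a `κ`-complete algebra of cardinality `κ`, the sequence is increasing, and `𝒜_0`
contains all singletons. -/
def LegalWelchI {X : Type u} (γ : Ordinal.{u}) (A : Ordinal.{u} → Set (Set X)) : Prop :=
  (∀ α < γ, IsCompleteAlgebra (A α) ∧ #(A α) = #X) ∧
    (∀ α < γ, ∀ β < α, A β ⊆ A α) ∧ ∀ x : X, {x} ∈ A 0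

/-- The `κ`-complete subalgebra of the power set of `X` generated by `𝒢`. -/
def generatedAlgebra {X : Type u} (𝒢 : Set (Set X)) : Set (Set X) :=
  ⋂₀ {𝒜 | IsCompleteAlgebra 𝒜 ∧ 𝒢 ⊆ 𝒜}

/-- A strategy of Player II in the Welch game: her answer at stage `α` depends on the moves
`(𝒜_β)_{β ≤ α}` of Player I made so far. -/
abbrev WelchStrategy (X : Type u) : Type (u + 1) :=
  (α : Ordinal.{u}) → (Set.Iic α → Set (Set X)) → Set (Set X)

/-- Player II has a winning strategy in the game `𝒢*_γ` on `X`: a strategy such that against all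
legal sequences of moves of Player I, her answers `U_α` are uniform `κ`-complete ultrafilters on
`𝒜_α` extending each other, and `⋃_{α < γ} U_α` extends to a uniform `κ`-complete ultrafilter on
the `κ`-complete algebra generated by `⋃_{α < γ} 𝒜_α`. -/
def PlayerIIWinsStar (X : Type u) (γ : Ordinal.{u}) : Prop :=
  ∃ σ : WelchStrategy X, ∀ A : Ordinal.{u} → Set (Set X), LegalWelchI γ A →
    (∀ α < γ, IsUniformUltrafilterOn (A α) (σ α fun β => A β)) ∧
    (∀ α < γ, ∀ β < α, (σ β fun δ => A δ) ⊆ (σ α fun δ => A δ)) ∧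
    ∃ V : Set (Set X), IsUniformUltrafilterOn (generatedAlgebra (⋃ α ∈ Set.Iio γ, A α)) V ∧
      ∀ α < γ, (σ α fun β => A β) ⊆ V

/-- Player II has a winning strategy in the Welch game `𝒢^W_γ` of length `γ` on `X`. -/
def PlayerIIWinsWelch (X : Type u) (γ : Ordinal.{u}) : Prop :=
  ∃ σ : WelchStrategy X, ∀ A : Ordinal.{u} → Set (Set X), LegalWelchI γ A →
    (∀ α < γ, IsUniformUltrafilterOn (A α) (σ α fun β => A β)) ∧
    (∀ α < γ, ∀ β < α, (σ β fun δ => A δ) ⊆ (σ α fun δ => A δ))

/-- A strategy of Player II in Ulam's game: her choice at stage `α` depends on the partitions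
`(A^β_0, A^β_1)_{β ≤ α}` played by Player I so far. -/
abbrev UlamStrategy (X : Type u) : Type (u + 1) :=
  (α : Ordinal.{u}) → (Set.Iic α → Set X × Set X) → Set X

/-- Player II has a winning strategy in the Ulam game of length `γ` on `X`: a strategy such that,
whenever Player I plays for each `α < γ` a partition `(A^α_0, A^α_1)` of
`C_α = ⋂_{β < α} B_β` (so `C_0 = X`), where `B_β` are the answers of the strategy,
each answer `B_α` is one of the two pieces `A^α_0`, `A^α_1`, and `⋂_{α < γ} B_α` has at least two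
elements. -/
def PlayerIIWinsUlam (X : Type u) (γ : Ordinal.{u}) : Prop :=
  ∃ τ : UlamStrategy X, ∀ A : Ordinal.{u} → Set X × Set X,
    (∀ α < γ, (A α).1 ∪ (A α).2 = ⋂ β ∈ Set.Iio α, (τ β fun δ => A δ) ∧
      Disjoint (A α).1 (A α).2) →
    (∀ α < γ, (τ α fun δ => A δ) = (A α).1 ∨ (τ α fun δ => A δ) = (A α).2) ∧
      (2 : Cardinal.{u}) ≤ #(⋂ α ∈ Set.Iio γ, (τ α fun δ => A δ) : Set X)

/-- `μ` is a measurable cardinal: it is uncountable and there is a nonprincipal `μ`-complete
ultrafilter on a set of cardinality `μ`. -/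
def IsMeasurableCardinal (μ : Cardinal.{u}) : Prop :=
  ℵ₀ < μ ∧ ∃ (Y : Type u) (D : Ultrafilter Y), #Y = μ ∧ (∀ y : Y, {y} ∉ D) ∧
    ∀ S : Set (Set Y), (∀ s ∈ S, s ∈ D) → #S < μ → ⋂₀ S ∈ D

end Pool.Agent.UlamWelch
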