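import Pool.Agent.UlamWelch.Ulam
import Pool.Agent.UlamWelch.Bad

/-!
Main theorem: above a measurable cardinal the Ulam game does not bound the games `𝒢*_γ`.
-/

set_option autoImplicit false

universe u

namespace Pool.Agent.UlamWelch

open Cardinal Ordinal

/-- If `κ = #X` is the least inaccessible cardinal above `μ`, Player II wins neither the Welch
game nor the game `𝒢*_γ` on `X`, for any length `γ > 0`. -/
theorem not_playerIIWins_of_least (X : Type u) (hX : (#X).IsInaccessible) {μ : Cardinal.{u}}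
    (hμ : ℵ₀ ≤ μ) (hμX : μ < #X)
    (hno : ∀ ν : Cardinal.{u}, μ < ν → ν < #X → ¬ ν.IsInaccessible) {γ : Ordinal.{u}}
    (hγ : 0 < γ) : ¬ PlayerIIWinsWelch X γ := by
  obtain ⟨𝒜, h1, h2, h3, h4⟩ := exists_bad_algebra X hX hμ hμX hno
  rintro ⟨σ, hσ⟩
  apply h4
  have h5 : LegalWelchI γ (fun _ => 𝒜) :=
    ⟨fun _ _ => ⟨h1, h2⟩, fun _ _ _ _ => subset_rfl, h3⟩
  exact ⟨_, (hσ _ h5).1 0 hγ⟩

lemma playerIIWinsWelch_of_star {X : Type u} {γ : Ordinal.{u}} (h : PlayerIIWinsStar X γ) :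
    PlayerIIWinsWelch X γ := by
  obtain ⟨σ, hσ⟩ := h
  exact ⟨σ, fun A hA => ⟨(hσ A hA).1, (hσ A hA).2.1⟩⟩

theorem main (μ : Cardinal.{u}) (hμ : IsMeasurableCardinal μ) :
    ∃ X : Type (u + 1), (#X).IsInaccessible ∧ Cardinal.lift.{u + 1} μ < #X ∧
      (∀ ν : Cardinal.{u + 1}, Cardinal.lift.{u + 1} μ < ν → ν < #X → ¬ ν.IsInaccessible) ∧
      ∀ γ : Ordinal.{u + 1}, Order.IsSuccLimit γ → γ < (Cardinal.lift.{u + 1} μ).ord →
        PlayerIIWinsUlam X γ ∧ ¬ PlayerIIWinsWelch X γ ∧ ¬ PlayerIIWinsStar X γ := by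
  -- the least inaccessible cardinal above `μ`
  have hex : ∃ κ : Cardinal.{u + 1}, κ.IsInaccessible ∧ Cardinal.lift.{u + 1} μ < κ := by
    refine ⟨Cardinal.univ.{u, u + 1}, IsInaccessible.univ, ?_⟩
    exact Cardinal.lift_lt_univ μ
  obtain ⟨κ, ⟨hκ1, hκ2⟩, hκ3⟩ := WellFounded.has_min (Cardinal.lt_wf)
    {κ : Cardinal.{u + 1} | κ.IsInaccessible ∧ Cardinal.lift.{u + 1} μ < κ} hex
  induction κ using Cardinal.inductionOn with
  | mk X =>
    have hno : ∀ ν : Cardinal.{u + 1}, Cardinal.lift.{u + 1} μ < ν → ν < #X →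
        ¬ ν.IsInaccessible := fun ν h1 h2 h3 => hκ3 ν ⟨h3, h1⟩ h2
    refine ⟨X, hκ1, hκ2, hno, ?_⟩
    intro γ hγ hγμ
    have hμ0 : ℵ₀ ≤ Cardinal.lift.{u + 1} μ := by
      rw [← Cardinal.lift_aleph0.{u + 1, u}, Cardinal.lift_le]
      exact hμ.1.le
    have hW : ¬ PlayerIIWinsWelch X γ :=
      not_playerIIWins_of_least X hκ1 hμ0 hκ2 hno hγ.bot_lt
    refine ⟨?_, hW, fun h => hW (playerIIWinsWelch_of_star h)⟩
    obtain ⟨D, hD1, hD2⟩ := exists_ultrafilter_lift hμ X hκ2.le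
    exact playerIIWinsUlam_of_ultrafilter D hD2 hD1 (lt_ord.mp hγμ)

end Pool.Agent.UlamWelch
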