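import Pool.Agent.UlamWelch.Main

/-!
Winning strategies of Player II in Ulam games transfer to larger sets.
-/

set_option autoImplicit false

universe u

namespace Pool.Agent.UlamWelch

open Cardinal Ordinal

/-- Continuation of a play after stage `α` by trivial partitions. -/
noncomputable def continuation {X : Type u} (τ : UlamStrategy X) (α : Ordinal.{u})
    (P : Ordinal.{u} → Set X × Set X) : Ordinal.{u} → Set X × Set X :=
  WellFoundedLT.fix (motive := fun _ => Set X × Set X) fun β ih =>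
    open Classical in
    if β ≤ α then P β
    else (⋂ (δ : Ordinal.{u}) (hδ : δ < β), τ δ (fun η => ih η.1 (lt_of_le_of_lt η.2 hδ)), ∅)

lemma continuation_of_le {X : Type u} (τ : UlamStrategy X) {α : Ordinal.{u}}
    (P : Ordinal.{u} → Set X × Set X) {β : Ordinal.{u}} (h : β ≤ α) :
    continuation τ α P β = P β := by
  unfold continuation
  rw [WellFoundedLT.fix_eq, if_pos h]

lemma continuation_of_gt {X : Type u} (τ : UlamStrategy X) {α : Ordinal.{u}}
    (P : Ordinal.{u} → Set X × Set X) {β : Ordinal.{u}} (h : α < β) :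
    continuation τ α P β = (⋂ δ ∈ Set.Iio β, τ δ (fun η => continuation τ α P η), ∅) := by
  have h2 : ¬ β ≤ α := not_le.mpr h
  conv_lhs => unfold continuation
  rw [WellFoundedLT.fix_eq, if_neg h2]
  rfl

/-- Transfer of winning strategies of Player II along an injection. -/
theorem PlayerIIWinsUlam.of_embedding {X₀ X : Type u} (e : X₀ ↪ X) {γ : Ordinal.{u}}
    (h : PlayerIIWinsUlam X₀ γ) : PlayerIIWinsUlam X γ := by
  classical
  obtain ⟨τ₀, h₀⟩ := h
  let pull : Set X × Set X → Set X₀ × Set X₀ := fun A => (e ⁻¹' A.1, e ⁻¹' A.2)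
  let τ : UlamStrategy X := fun α A =>
    if τ₀ α (fun β => pull (A β)) = e ⁻¹' (A ⟨α, Set.mem_Iic.mpr le_rfl⟩).1
    then (A ⟨α, Set.mem_Iic.mpr le_rfl⟩).1 else (A ⟨α, Set.mem_Iic.mpr le_rfl⟩).2
  refine ⟨τ, fun A hA => ?_⟩
  set B : Ordinal.{u} → Set X := fun α => τ α fun δ => A δ with hB
  set P : Ordinal.{u} → Set X₀ × Set X₀ := fun α => pull (A α) with hP
  set B₀ : Ordinal.{u} → Set X₀ := fun α => τ₀ α fun δ => P δ with hB₀
  have hBval : ∀ α, B α = if B₀ α = e ⁻¹' (A α).1 then (A α).1 else (A α).2 := fun α => rfl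
  have hPleg : ∀ α < γ, (∀ β < α, B₀ β = e ⁻¹' (B β)) →
      (P α).1 ∪ (P α).2 = ⋂ β ∈ Set.Iio α, B₀ β ∧ Disjoint (P α).1 (P α).2 := by
    intro α hα ih
    constructor
    · have h1 : (P α).1 ∪ (P α).2 = e ⁻¹' ((A α).1 ∪ (A α).2) := by
        rw [Set.preimage_union]
      rw [h1, (hA α hα).1, Set.preimage_iInter₂]
      refine Set.iInter₂_congr (fun β hβ => ?_)
      exact (ih β hβ).symm
    · exact (hA α hα).2.preimage e
  have hkey : ∀ α < γ, B₀ α = e ⁻¹' (B α) := by
    intro α
    induction α using WellFoundedLT.induction with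
    | ind α ih =>
      intro hα
      -- a legal play agreeing with `P` up to `α`
      set Q := continuation τ₀ α P with hQ
      have hQle : ∀ β ≤ α, Q β = P β := fun β hβ => continuation_of_le τ₀ P hβ
      have hQans : ∀ β ≤ α, (τ₀ β fun δ => Q δ) = B₀ β := by
        intro β hβ
        show (τ₀ β fun δ => Q δ) = τ₀ β fun δ => P δ
        congr 1
        funext δ
        exact hQle δ.1 (δ.2.trans hβ)
      have hQleg : ∀ β < γ, (Q β).1 ∪ (Q β).2 = ⋂ δ ∈ Set.Iio β, (τ₀ δ fun η => Q η) ∧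
          Disjoint (Q β).1 (Q β).2 := by
        intro β hβ
        by_cases hβα : β ≤ α
        · rw [hQle β hβα]
          have h1 := hPleg β hβ (fun δ hδ => ih δ (hδ.trans_le hβα) (hδ.trans hβ))
          refine ⟨?_, h1.2⟩
          rw [h1.1]
          refine Set.iInter₂_congr (fun δ hδ => ?_)
          exact (hQans δ ((Set.mem_Iio.mp hδ).le.trans hβα)).symm
        · rw [not_le] at hβα
          have h1 : Q β = (⋂ δ ∈ Set.Iio β, τ₀ δ (fun η => Q η), ∅) :=
            continuation_of_gt τ₀ P hβα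
          rw [h1]
          refine ⟨?_, ?_⟩
          · simp only [Set.union_empty]
          · exact Set.disjoint_empty _
      have h2 := (h₀ Q hQleg).1 α hα
      rw [hQans α le_rfl, hQle α le_rfl] at h2
      rw [hBval]
      by_cases hc : B₀ α = e ⁻¹' (A α).1
      · rw [if_pos hc]; exact hc
      · rw [if_neg hc]
        rcases h2 with h2 | h2
        · exact absurd h2 hc
        · exact h2
  have hfull := h₀ P (fun α hα => hPleg α hα (fun β hβ => hkey β (hβ.trans hα)))
  refine ⟨?_, ?_⟩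
  · intro α _
    show B α = _ ∨ B α = _
    rw [hBval]
    split_ifs
    · exact Or.inl rfl
    · exact Or.inr rfl
  · refine hfull.2.trans ?_
    have h3 : (⋂ α ∈ Set.Iio γ, B₀ α) = e ⁻¹' (⋂ α ∈ Set.Iio γ, B α) := by
      rw [Set.preimage_iInter₂]
      exact Set.iInter₂_congr (fun α hα => hkey α hα)
    show #(⋂ α ∈ Set.Iio γ, B₀ α : Set X₀) ≤ #(⋂ α ∈ Set.Iio γ, B α : Set X)
    rw [h3]
    exact mk_preimage_of_injective _ _ e.injective

/-- If Player II wins the Ulam game of length `γ` on `κ₀` and `κ` is the least inaccessible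
cardinal above `κ₀`, then she wins the Ulam game of length `γ` on `κ` but neither the Welch game
of length `γ` nor `𝒢*_γ`. -/
theorem next_inaccessible {X₀ X : Type u} (hX : (#X).IsInaccessible) (h₀X : #X₀ < #X)
    (hno : ∀ ν : Cardinal.{u}, #X₀ < ν → ν < #X → ¬ ν.IsInaccessible) {γ : Ordinal.{u}}
    (hγ : Order.IsSuccLimit γ) (h : PlayerIIWinsUlam X₀ γ) :
    PlayerIIWinsUlam X γ ∧ ¬ PlayerIIWinsWelch X γ ∧ ¬ PlayerIIWinsStar X γ := by
  obtain ⟨e⟩ := Cardinal.le_def _ _ |>.mp h₀X.le
  have hW : ¬ PlayerIIWinsWelch X γ := by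
    refine not_playerIIWins_of_least X hX (μ := max ℵ₀ #X₀) (le_max_left _ _) ?_ ?_ hγ.bot_lt
    · exact max_lt hX.aleph0_lt h₀X
    · intro ν h1 h2
      exact hno ν ((le_max_right _ _).trans_lt h1) h2
  exact ⟨h.of_embedding e, hW, fun h' => hW (playerIIWinsWelch_of_star h')⟩

end Pool.Agent.UlamWelch
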