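import Pool.Agent.UlamWelch.Defs

/-!
A nonprincipal `μ`-complete ultrafilter gives Player II a winning strategy in Ulam games of
length less than `μ`.
-/

set_option autoImplicit false

universe u v

namespace Pool.Agent.UlamWelch

open Cardinal Ordinal

lemma mk_image_Iio_le {T : Type u} (f : Ordinal.{u} → T) (α : Ordinal.{u}) :
    #(f '' Set.Iio α) ≤ α.card := by
  have h := Cardinal.mk_image_le_lift (f := f) (s := Set.Iio α)
  rw [Cardinal.mk_Iio_ordinal] at h
  rw [← Cardinal.lift_le.{u + 1}]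
  refine h.trans (le_of_eq ?_)
  simp

theorem playerIIWinsUlam_of_ultrafilter {X : Type u} (D : Ultrafilter X) {μ : Cardinal.{u}}
    (hD : ∀ S : Set (Set X), (∀ s ∈ S, s ∈ D) → #S < μ → ⋂₀ S ∈ D)
    (hnp : ∀ x : X, {x} ∉ D) {γ : Ordinal.{u}} (hγ : γ.card < μ) : PlayerIIWinsUlam X γ := by
  classical
  let τ : UlamStrategy X := fun α A =>
    if (A ⟨α, Set.mem_Iic.mpr le_rfl⟩).1 ∈ D then (A ⟨α, Set.mem_Iic.mpr le_rfl⟩).1
    else (A ⟨α, Set.mem_Iic.mpr le_rfl⟩).2
  refine ⟨τ, fun A hA => ?_⟩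
  set B : Ordinal.{u} → Set X := fun α => τ α fun δ => A δ with hB
  have hBval : ∀ α, B α = if (A α).1 ∈ D then (A α).1 else (A α).2 := fun α => rfl
  -- intersections of boundedly many answers in `D` are in `D`
  have hinter : ∀ α : Ordinal.{u}, α.card < μ → (∀ β < α, B β ∈ D) →
      (⋂ β ∈ Set.Iio α, B β) ∈ D := by
    intro α hα hβ
    have h1 : (⋂ β ∈ Set.Iio α, B β) = ⋂₀ (B '' Set.Iio α) := by
      rw [Set.sInter_image]
    rw [h1]
    apply hD
    · rintro s ⟨β, hβα, rfl⟩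
      exact hβ β hβα
    · exact (mk_image_Iio_le B α).trans_lt hα
  have hmem : ∀ α < γ, B α ∈ D := by
    intro α
    induction α using WellFoundedLT.induction with
    | ind α ih =>
      intro hα
      have h1 : (⋂ β ∈ Set.Iio α, B β) ∈ D := by
        apply hinter α ((Ordinal.card_le_card hα.le).trans_lt hγ)
        intro β hβ
        exact ih β hβ (hβ.trans hα)
      have h2 : (A α).1 ∪ (A α).2 ∈ D := by
        rw [(hA α hα).1]; exact h1
      rw [hBval]
      split_ifs with h3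
      · exact h3
      · exact (Ultrafilter.union_mem_iff.mp h2).resolve_left h3
  refine ⟨?_, ?_⟩
  · intro α _
    show B α = _ ∨ B α = _
    rw [hBval]
    split_ifs
    · exact Or.inl rfl
    · exact Or.inr rfl
  · have h4 : (⋂ α ∈ Set.Iio γ, B α) ∈ D := hinter γ hγ hmem
    by_contra hcon
    rw [not_le] at hcon
    have h5 : (⋂ α ∈ Set.Iio γ, B α).Subsingleton := by
      intro x hx y hy
      by_contra hxy
      apply not_lt.mpr _ hcon
      rw [Cardinal.two_le_iff]
      exact ⟨⟨x, hx⟩, ⟨y, hy⟩, fun h => hxy (congrArg Subtype.val h)⟩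
    rcases h5.eq_empty_or_singleton with h6 | ⟨x, h6⟩
    · rw [h6] at h4
      exact Ultrafilter.empty_notMem h4
    · rw [h6] at h4
      exact hnp x h4

/-- Transfer of a measure to a larger set in the next universe. -/
theorem exists_ultrafilter_lift {μ : Cardinal.{u}} (hμ : IsMeasurableCardinal μ)
    (X : Type (u + 1)) (hX : Cardinal.lift.{u + 1} μ ≤ #X) :
    ∃ D : Ultrafilter X, (∀ x, {x} ∉ D) ∧
      ∀ S : Set (Set X), (∀ s ∈ S, s ∈ D) → #S < Cardinal.lift.{u + 1} μ → ⋂₀ S ∈ D := by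
  obtain ⟨h0, Y, D, hY, hnp, hD⟩ := hμ
  have h1 : Cardinal.lift.{u + 1} #Y ≤ Cardinal.lift.{u} #X := by
    rw [hY, Cardinal.lift_id'.{u, u + 1}]; exact hX
  obtain ⟨e⟩ := Cardinal.lift_mk_le'.mp h1
  refine ⟨D.map e, ?_, ?_⟩
  · intro x hx
    rw [Ultrafilter.mem_map] at hx
    by_cases h2 : ∃ y, e y = x
    · obtain ⟨y, rfl⟩ := h2
      have h3 : e ⁻¹' {e y} = {y} := by
        ext z; simp [e.injective.eq_iff]
      rw [h3] at hx
      exact hnp y hx
    · have h3 : e ⁻¹' {x} = ∅ := by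
        ext z
        simp only [Set.mem_preimage, Set.mem_singleton_iff, Set.mem_empty_iff_false, iff_false]
        exact fun h => h2 ⟨z, h⟩
      rw [h3] at hx
      exact Ultrafilter.empty_notMem hx
  · intro S hS hcard
    rw [Ultrafilter.mem_map]
    have h2 : e ⁻¹' (⋂₀ S) = ⋂₀ ((fun s => e ⁻¹' s) '' S) := by
      rw [Set.sInter_image, Set.preimage_sInter]
    rw [h2]
    apply hD
    · rintro _ ⟨s, hs, rfl⟩
      exact Ultrafilter.mem_map.mp (hS s hs)
    · have h3 := Cardinal.mk_image_le_lift (f := fun s : Set X => e ⁻¹' s) (s := S)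
      rw [← Cardinal.lift_lt.{u, u + 1}]
      refine lt_of_le_of_lt ?_ hcard
      rw [Cardinal.lift_id'.{u, u + 1}] at h3
      exact h3

end Pool.Agent.UlamWelch
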